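import Pool.Agent.Helper99.SC.GeoStmts

/-!
# Assembly of the layout
-/

set_option autoImplicit false

namespace Pool.Agent.Helper9.SC

open Pool.Agent.Helper99.SC

theorem cross_symm {a b c d : ℕ} (h : Cross a b c d) : Cross c d a b := by
  unfold Cross at *
  omega

theorem sg_geo (hnum : M_num) (hbip : M_bip) (hRR : M_cRR) (hY : M_cY) (hT : M_cT) (hP : M_cP)
    (hD : M_cD) (hcov : M_cov) (hrows : M_rows) (hrun : M_run) : M_geo := by
  intro K ops hK hv
  obtain ⟨-, hinj, hlt, -, hcr⟩ := hnum K ops.length hK
  refine ⟨⟨?_, ?_⟩, ?_⟩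
  · rintro a b ⟨s, t, hs, ht, -, rfl, rfl⟩
    exact ⟨hlt s hs, hlt t ht⟩
  · rintro a b c ⟨s, t, hs, ht, h1, rfl, hb⟩ ⟨s', t', hs', ht', h2, hb', rfl⟩
    have e : t = s' := hinj t s' ht hs' (by rw [hb, hb'])
    subst e
    exact hbip K ops hv s t t' hs ht ht' h1 h2
  · constructor
    · rintro ⟨A, B, hAB, hA, hB⟩
      have hpages : Pages K ops (fun b s t => if b = true then A (num K s) (num K t) else
          B (num K s) (num K t)) := by
        constructor
        · intro s t hs ht
          have h1 := hAB (num K s) (num K t)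
          simp only [if_true, Bool.false_eq_true, if_false]
          rw [← h1]
          constructor
          · intro h
            exact ⟨s, t, hs, ht, h, rfl, rfl⟩
          · rintro ⟨s', t', hs', ht', h, e1, e2⟩
            have := hinj _ _ hs' hs e1
            have := hinj _ _ ht' ht e2
            subst_vars
            exact h
        · intro b s t s' t' hs ht hs' ht' h1 h2 hX
          have hX1 : Cross (num K s) (num K t) (num K s') (num K t') :=
            (hcr s t s' t' hs ht hs' ht').2 hX
          have hX2 := cross_symm hX1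
          cases b
          · simp only [Bool.false_eq_true, if_false] at h1 h2 ⊢
            exact ⟨hB _ _ _ _ h1 h2 hX1, hB _ _ _ _ h2 h1 hX2⟩
          · simp only [if_true] at h1 h2 ⊢
            exact ⟨hA _ _ _ _ h1 h2 hX1, hA _ _ _ _ h2 h1 hX2⟩
      exact (hrun K ops hv).1 (hrows K ops _ hv hpages)
    · intro h
      obtain ⟨X, hX⟩ := (hrun K ops hv).2 h
      have hHH : ∀ b s t, Pg ops X b s t → HH ops s t := by
        intro b s t h
        refine (hcov K ops X s t hv hX).2 ?_
        cases b
        · exact Or.inr h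
        · exact Or.inl h
      have hclo : ∀ b s t s' t', Pl.Ok K ops.length s → Pl.Ok K ops.length t →
          Pl.Ok K ops.length s' → Pl.Ok K ops.length t' → Pg ops X b s t → Pg ops X b s' t' →
          PCross s t s' t' → Pg ops X b s t' := by
        intro b s t s' t' hs ht hs' ht' h1 h2 hc
        have e1 := hHH _ _ _ h1
        have e2 := hHH _ _ _ h2
        by_cases c1 : HY ops s t ∨ HY ops s' t'
        · exact hY K ops X hv hX b s t s' t' hs ht hs' ht' c1 h1 h2 hc
        by_cases c2 : HT ops s t ∨ HT ops s' t'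
        · exact hT K ops X hv hX b s t s' t' hs ht hs' ht' c2 h1 h2 hc
        by_cases c3 : HP ops s t ∨ HP ops s' t'
        · exact hP K ops X hv hX b s t s' t' hs ht hs' ht' c3 h1 h2 hc
        by_cases c4 : HD ops s t ∨ HD ops s' t'
        · exact hD K ops X hv hX b s t s' t' hs ht hs' ht' c4 h1 h2 hc
        refine hRR K ops X hv hX b s t s' t' hs ht hs' ht' ⟨?_, ?_⟩ h1 h2 hc
        · rcases e1 with e | e | e | e | e
          · exact e
          · exact absurd (Or.inl e) c1
          · exact absurd (Or.inl e) c2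
          · exact absurd (Or.inl e) c3
          · exact absurd (Or.inl e) c4
        · rcases e2 with e | e | e | e | e
          · exact e
          · exact absurd (Or.inr e) c1
          · exact absurd (Or.inr e) c2
          · exact absurd (Or.inr e) c3
          · exact absurd (Or.inr e) c4
      have hswap : ∀ b, SwapClosed fun a c => ∃ s t, Pl.Ok K ops.length s ∧
          Pl.Ok K ops.length t ∧ Pg ops X b s t ∧ num K s = a ∧ num K t = c := by
        rintro b _ _ _ _ ⟨s, t, hs, ht, h1, rfl, rfl⟩ ⟨s', t', hs', ht', h2, rfl, rfl⟩ hc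
        exact ⟨s, t', hs, ht', hclo b s t s' t' hs ht hs' ht' h1 h2
          ((hcr s t s' t' hs ht hs' ht').1 hc), rfl, rfl⟩
      refine ⟨_, _, ?_, hswap true, hswap false⟩
      intro a c
      constructor
      · rintro ⟨s, t, hs, ht, h, e1, e2⟩
        rcases (hcov K ops X s t hv hX).1 h with h | h
        · exact Or.inl ⟨s, t, hs, ht, h, e1, e2⟩
        · exact Or.inr ⟨s, t, hs, ht, h, e1, e2⟩
      · rintro (⟨s, t, hs, ht, h, e1, e2⟩ | ⟨s, t, hs, ht, h, e1, e2⟩)
        · exact ⟨s, t, hs, ht, hHH _ _ _ h, e1, e2⟩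
        · exact ⟨s, t, hs, ht, hHH _ _ _ h, e1, e2⟩

end Pool.Agent.Helper9.SC
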