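import Pool.Agent.Helper99.SC.Topo

/-!
# The parity of a chain at a point
-/

set_option autoImplicit false

namespace Pool.Agent.Helper9.SC

open Equiv Pool.Agent.Helper99.SC

open Classical in
theorem sc_par : M_par := by
  intro V T l hl hc p
  have := T.finDart
  have : Fintype T.Dart := Fintype.ofFinite _
  let s : Finset T.Dart := Finset.univ.filter fun d => T.base d = p
  have hs : ∀ d, d ∈ s ↔ T.base d = p := by intro d; simp [s]
  have htot : ∀ f : T.Dart → ZMod 2, T.tot f p = ∑ d ∈ s, f d := by
    intro f
    unfold Drawing.tot
    refine finsum_cond_eq_sum_of_cond_iff f ?_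
    intro x _
    exact (hs x).symm
  -- the total as a sum over the list
  have h1 : ∀ l : List T.Dart, T.tot (T.cnt l) p =
      (l.map fun d => ((if p = T.base d then 1 else 0) +
        (if p = T.base (T.rev d) then 1 else 0) : ZMod 2)).sum := by
    intro l
    rw [htot]
    induction l with
    | nil => simp [Drawing.cnt]
    | cons a l ih =>
      rw [List.map_cons, List.sum_cons, ← ih]
      have hA : ∑ d ∈ s, (if a = d then (1 : ZMod 2) else 0) =
          if p = T.base a then 1 else 0 := by
        rw [Finset.sum_ite_eq]
        simp only [hs, eq_comm (a := p)]
      have hB : ∑ d ∈ s, (if a = T.rev d then (1 : ZMod 2) else 0) =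
          if p = T.base (T.rev a) then 1 else 0 := by
        have : ∀ d, (a = T.rev d) ↔ (T.rev a = d) := by
          intro d
          constructor
          · rintro rfl
            exact T.rev_rev d
          · rintro rfl
            exact (T.rev_rev a).symm
        simp only [this]
        rw [Finset.sum_ite_eq]
        simp only [hs, eq_comm (a := p)]
      rw [← hA, ← hB, ← Finset.sum_add_distrib, ← Finset.sum_add_distrib]
      refine Finset.sum_congr rfl ?_
      intro d _
      simp only [Drawing.cnt, List.count_cons, beq_iff_eq]
      push_cast
      ring
  rw [h1]
  clear h1 htot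
  induction l with
  | nil => exact absurd rfl hl
  | cons a l ih =>
    cases l with
    | nil =>
      simp only [List.map_cons, List.map_nil, List.sum_cons, List.sum_nil, List.head_cons,
        List.getLast_singleton, add_zero]
      split_ifs <;> rfl
    | cons b l =>
      have hsm : T.Smooth a b := (List.isChain_cons_cons.1 hc).1
      have hc' := (List.isChain_cons_cons.1 hc).2
      have ih' := ih (by simp) hc'
      rw [List.map_cons, List.sum_cons, ih']
      obtain ⟨j, hj1, hj2, -, -⟩ := hsm
      have e1 : T.base (T.rev a) = T.base ((b :: l).head (by simp)) := by
        rw [hj1, List.head_cons, hj2]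
      rw [e1, List.head_cons, List.getLast_cons (List.cons_ne_nil b l)]
      have h2 : ∀ x y w : ZMod 2, x + y + (y + w) = x + w := by
        intro x y w
        have : y + y = 0 := CharTwo.add_self_eq_zero y
        linear_combination this
      exact h2 _ _ _

end Pool.Agent.Helper9.SC
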