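import Pool.Agent.Helper99.SC.Topo

/-!
# Closed systems of walks have potentials
-/

set_option autoImplicit false

namespace Pool.Agent.Helper9.SC

open Equiv Pool.Agent.Helper99.SC

/-- On a cycle of a permutation a function with sum zero is a difference. -/
theorem exists_diff {D P : Type} [Fintype D] (rot : Perm D) (base : D → P)
    (hsc : ∀ d e, rot.SameCycle d e ↔ base d = base e) (z : D → ZMod 2)
    (h0 : ∀ p : P, ∀ s : Finset D, (∀ d, d ∈ s ↔ base d = p) → ∑ d ∈ s, z d = 0) :
    ∃ g : D → ZMod 2, ∀ d, g (rot d) = g d + z (rot d) := by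
  classical
  -- representatives
  let S : D → Finset D := fun d => Finset.univ.filter fun e => base e = base d
  have hS : ∀ d e, e ∈ S d ↔ base e = base d := by intro d e; simp [S]
  have hrot : ∀ d, base (rot d) = base d := by
    intro d
    rw [← hsc]
    exact Perm.sameCycle_apply_left.2 (Perm.SameCycle.refl rot d)
  have hai : ∀ e, rot (rot⁻¹ e) = e := fun e => rot.apply_symm_apply e
  have hcyc : ∀ d, rot.IsCycleOn (S d : Set D) := by
    intro d
    refine ⟨⟨?_, rot.injective.injOn, ?_⟩, ?_⟩
    · intro e he
      have : base e = base d := by simpa [S] using he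
      show rot e ∈ (S d : Set D)
      simp [S, hrot, this]
    · intro e he
      have he' : base e = base d := by simpa [S] using he
      refine ⟨rot⁻¹ e, ?_, hai e⟩
      have := hrot (rot⁻¹ e)
      rw [hai] at this
      show rot⁻¹ e ∈ S d
      rw [hS, ← this, he']
    · intro a ha b hb
      rw [hsc]
      have ha' : base a = base d := by simpa [S] using ha
      have hb' : base b = base d := by simpa [S] using hb
      rw [ha', hb']
  -- a representative of every point
  have hex : ∃ r : D → D, (∀ d, base (r d) = base d) ∧ ∀ d e, base d = base e → r d = r e := by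
    refine ⟨fun d => (Quotient.mk (Setoid.comap base ⟨Eq, eq_equivalence⟩) d).out, ?_, ?_⟩
    · intro d
      exact Quotient.exact (s := Setoid.comap base ⟨Eq, eq_equivalence⟩) (Quotient.out_eq _)
    · intro d e h
      have : (Quotient.mk (Setoid.comap base ⟨Eq, eq_equivalence⟩) d) =
          Quotient.mk (Setoid.comap base ⟨Eq, eq_equivalence⟩) e := Quotient.sound h
      simp only [this]
  obtain ⟨r, hr1, hr2⟩ := hex
  have hSr : ∀ d, r d ∈ S d := by intro d; simp [S, hr1]
  have hSd : ∀ d, d ∈ S d := by intro d; simp [S]
  have hk : ∀ d, ∃ n < (S d).card, (rot ^ n) (r d) = d := by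
    intro d
    exact (hcyc d).exists_pow_eq (hSr d) (hSd d)
  choose k hk1 hk2 using hk
  refine ⟨fun d => ∑ i ∈ Finset.range (k d), z ((rot ^ (i + 1)) (r d)), ?_⟩
  intro d
  show ∑ i ∈ Finset.range (k (rot d)), z ((rot ^ (i + 1)) (r (rot d))) =
    ∑ i ∈ Finset.range (k d), z ((rot ^ (i + 1)) (r d)) + z (rot d)
  have hrr : r (rot d) = r d := hr2 _ _ (hrot d)
  have hSS : S (rot d) = S d := by simp [S, hrot]
  have hpow : (rot ^ (k d + 1)) (r d) = rot d := by
    rw [pow_succ', Perm.mul_apply, hk2]
  have hk3 : (rot ^ (k (rot d))) (r d) = rot d := by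
    have := hk2 (rot d)
    rwa [hrr] at this
  have hk4 : k (rot d) < (S d).card := by
    have := hk1 (rot d)
    rwa [hSS] at this
  have hinj : ∀ m n, m < (S d).card → n < (S d).card → (rot ^ m) (r d) = (rot ^ n) (r d) →
      m = n := by
    intro m n hm hn h
    have := ((hcyc d).pow_apply_eq_pow_apply (hSr d)).1 h
    exact Nat.ModEq.eq_of_lt_of_lt this hm hn
  rw [hrr]
  have hsum : ∑ i ∈ Finset.range (k d), z ((rot ^ (i + 1)) (r d)) + z (rot d) =
      ∑ i ∈ Finset.range (k d + 1), z ((rot ^ (i + 1)) (r d)) := by
    rw [Finset.sum_range_succ, hpow]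
  rw [hsum]
  by_cases hlt : k d + 1 < (S d).card
  · have : k (rot d) = k d + 1 := hinj _ _ hk4 hlt (by rw [hk3, hpow])
    rw [this]
  · have hc : k d + 1 = (S d).card := by have := hk1 d; omega
    have hz : k (rot d) = 0 := by
      have h1 : (rot ^ (S d).card) (r d) = r d := (hcyc d).pow_card_apply (hSr d)
      rw [hc, ] at hpow
      refine hinj _ _ hk4 (by omega) ?_
      rw [hk3, ← hpow, h1]
      simp
    rw [hz, Finset.sum_range_zero, hc]
    symm
    rw [← h0 (base d) (S d) (hS d)]
    symm
    refine (Finset.sum_bij (fun i _ => (rot ^ (i + 1)) (r d)) ?_ ?_ ?_ ?_).symm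
    · intro i _
      rw [hS]
      have : ∀ n, base ((rot ^ n) (r d)) = base d := by
        intro n
        induction n with
        | zero => simpa using hr1 d
        | succ n ih => rw [pow_succ', Perm.mul_apply, hrot, ih]
      exact this _
    · intro i hi j hj h
      have hi' := Finset.mem_range.1 hi
      have hj' := Finset.mem_range.1 hj
      refine hinj i j hi' hj' ?_
      have h' : (rot ^ (i + 1)) (r d) = (rot ^ (j + 1)) (r d) := h
      rw [pow_succ', pow_succ', Perm.mul_apply, Perm.mul_apply] at h'
      exact rot.injective h'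
    · intro e he
      have he1 : rot⁻¹ e ∈ S d := by
        rw [hS] at he ⊢
        have := hrot (rot⁻¹ e)
        rw [hai] at this
        rw [← this, he]
      obtain ⟨n, hn, hn2⟩ := (hcyc d).exists_pow_eq (hSr d) he1
      refine ⟨n, Finset.mem_range.2 hn, ?_⟩
      rw [pow_succ', Perm.mul_apply, hn2]
      simp
    · intro i _
      rfl

open Classical in
theorem sc_pot (hf : M_flux) (hp : M_par) : M_pot := by
  intro V T ws hw hev
  have := T.finDart
  have : Fintype T.Dart := Fintype.ofFinite _
  have hflux : Flux T.rot T.rev := (hf T.Dart T.rot T.rev T.rev_rev T.rev_ne).1 T.plane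
  refine hflux _ ?_ ?_
  · intro d
    congr 1
    refine List.map_congr_left ?_
    intro w _
    simp only [Drawing.cnt, T.rev_rev]
    exact add_comm _ _
  · refine exists_diff T.rot T.base T.sameCycle (fun d => (ws.map fun w => T.cnt w.2.2 d).sum) ?_
    intro p s hs
    have htot : ∀ f : T.Dart → ZMod 2, T.tot f p = ∑ d ∈ s, f d := by
      intro f
      unfold Drawing.tot
      refine finsum_cond_eq_sum_of_cond_iff f ?_
      intro x _
      exact (hs x).symm
    have hsum : ∑ d ∈ s, (ws.map fun w => T.cnt w.2.2 d).sum =
        (ws.map fun w => T.tot (T.cnt w.2.2) p).sum := by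
      simp only [htot]
      clear hw hev
      induction ws with
      | nil => simp
      | cons w ws ih => simp [Finset.sum_add_distrib, ih]
    rw [hsum]
    have hval : ∀ w ∈ ws, T.tot (T.cnt w.2.2) p =
        (if p = Sum.inl w.1 then 1 else 0) + (if p = Sum.inl w.2.1 then 1 else 0) := by
      intro w hwm
      obtain ⟨hne, h1, h2, h3⟩ := hw w hwm
      rw [hp V T w.2.2 hne h3 p, h1, h2]
    rw [List.map_congr_left hval]
    cases p with
    | inr j => simp
    | inl x =>
      have : (ws.map fun w => ((if (Sum.inl x : V ⊕ T.J) = Sum.inl w.1 then 1 else 0) +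
          (if (Sum.inl x : V ⊕ T.J) = Sum.inl w.2.1 then 1 else 0) : ZMod 2)).sum =
          (((ws.map fun w => w.1).count x + (ws.map fun w => w.2.1).count x : ℕ) : ZMod 2) := by
        clear hw hev hsum hval
        induction ws with
        | nil => simp
        | cons w ws ih =>
          rw [List.map_cons, List.sum_cons, ih]
          simp only [List.map_cons, List.count_cons, Sum.inl.injEq]
          push_cast
          simp only [beq_iff_eq, eq_comm (a := x)]
          ring
      rw [this]
      exact (ZMod.natCast_eq_zero_iff_even).2 (hev x)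

end Pool.Agent.Helper9.SC
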